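import Pool.Agent.Helper70.Isg.Goals2

/-!
# Packet FKCOR (MP_600500_pr): the Edwards-Sokal expansion
-/

noncomputable section

namespace Pool.Agent.Helper87.Isg

open Pool.Agent.Helper70.Isg

/-- the sign of an element of `ZMod 2` -/
def sz (z : ZMod 2) : ℝ := if z = 0 then 1 else -1

lemma sz_zero : sz 0 = 1 := by simp [sz]

lemma zmod2_cases (z : ZMod 2) : z = 0 ∨ z = 1 := by
  revert z; decide

lemma sz_one : sz 1 = -1 := by simp [sz]

lemma sz_add (z w : ZMod 2) : sz (z + w) = sz z * sz w := by
  rcases zmod2_cases z with h | h <;> rcases zmod2_cases w with h' | h' <;> subst h <;> subst h'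
  · simp [sz]
  · simp [sz]
  · simp [sz]
  · have : (1 : ZMod 2) + 1 = 0 := by decide
    rw [this, sz_zero, sz_one]; norm_num

lemma sz_sum {V : Type} [DecidableEq V] (A : Finset V) (x : V → ZMod 2) :
    sz (∑ v ∈ A, x v) = ∏ v ∈ A, sz (x v) := by
  induction A using Finset.induction_on with
  | empty => simp [sz_zero]
  | insert a s ha ih => rw [Finset.sum_insert ha, Finset.prod_insert ha, sz_add, ih]

/-- `Bool` and `ZMod 2` -/
def bz : ZMod 2 ≃ Bool where
  toFun z := decide (z = 0)
  invFun b := if b then 0 else 1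
  left_inv := by intro z; rcases zmod2_cases z with h | h <;> subst h <;> simp
  right_inv := by intro b; cases b <;> simp

lemma sg_bz (z : ZMod 2) : sg (bz z) = sz z := by
  simp [sg, bz, sz]

lemma osg_bz {V : Type} (x : V → ZMod 2) (o : Option V) :
    osg (fun v => bz (x v)) o = sz (ext0 x o) := by
  cases o with
  | none => simp [osg, ext0, sz_zero]
  | some v => simp [osg, ext0, sg_bz]

lemma exp_edge (J : ℝ) (z w : ZMod 2) :
    Real.exp (J * (sz z * sz w)) =
      Real.exp (-J) * (1 + (Real.exp (2 * J) - 1) * (if z = w then 1 else 0)) := by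
  have h1 : Real.exp (-J) * Real.exp (2 * J) = Real.exp J := by
    rw [← Real.exp_add]; congr 1; ring
  rcases zmod2_cases z with h | h <;> rcases zmod2_cases w with h' | h' <;> subst h <;> subst h'
  · simp [sz_zero, h1]
  · simp [sz_zero, sz_one]
  · simp [sz_zero, sz_one]
  · simp [sz_one, h1]

lemma ext0_add {V : Type} (x y : V → ZMod 2) (o : Option V) :
    ext0 (x + y) o = ext0 x o + ext0 y o := by
  cases o <;> simp [ext0]

lemma char_sum {V ι : Type} [Fintype V] [DecidableEq V] (a b : ι → Option V) (ω : Finset ι)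
    (A : Finset V) :
    (∑ x : V → ZMod 2, (open Classical in if x ∈ cs a b ω then sz (∑ v ∈ A, x v) else 0)) =
      (open Classical in if ∀ x ∈ cs a b ω, ∑ v ∈ A, x v = 0 then
        (Nat.card (cs a b ω) : ℝ) else 0) := by
  classical
  split_ifs with h
  · have h1 : ∀ x : V → ZMod 2, (if x ∈ cs a b ω then sz (∑ v ∈ A, x v) else 0) =
        if x ∈ cs a b ω then (1 : ℝ) else 0 := by
      intro x
      by_cases hx : x ∈ cs a b ω
      · rw [if_pos hx, if_pos hx, h x hx, sz_zero]
      · rw [if_neg hx, if_neg hx]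
    rw [Finset.sum_congr rfl fun x _ => h1 x, ← Finset.sum_filter, Finset.sum_const,
      nsmul_eq_mul, mul_one]
    congr 1
    rw [Nat.card_eq_fintype_card, ← Fintype.card_subtype]
  · push Not at h
    obtain ⟨x0, hx0, hs⟩ := h
    have hs1 : sz (∑ v ∈ A, x0 v) = -1 := by
      rcases zmod2_cases (∑ v ∈ A, x0 v) with h | h
      · exact absurd h hs
      · rw [h, sz_one]
    set F : (V → ZMod 2) → ℝ := fun x => if x ∈ cs a b ω then sz (∑ v ∈ A, x v) else 0 with hF
    have h2 : ∀ x, F (x0 + x) = - F x := by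
      intro x
      have h3 : (x0 + x ∈ cs a b ω) ↔ x ∈ cs a b ω := by
        constructor
        · intro h
          have := (cs a b ω).sub_mem h hx0
          simpa using this
        · intro h
          exact (cs a b ω).add_mem hx0 h
      simp only [hF]
      by_cases hx : x ∈ cs a b ω
      · rw [if_pos hx, if_pos (h3.2 hx)]
        simp only [Pi.add_apply, Finset.sum_add_distrib, sz_add, hs1]
        ring
      · rw [if_neg hx, if_neg (fun h => hx (h3.1 h))]; simp
    have h4 : ∑ x, F x = ∑ x, F (x0 + x) :=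
      (Fintype.sum_equiv (Equiv.addLeft x0) _ _ (fun x => rfl)).symm
    have h5 : ∑ x, F x = - ∑ x, F x := by
      conv_lhs => rw [h4]
      rw [← Finset.sum_neg_distrib]
      exact Finset.sum_congr rfl fun x _ => h2 x
    show ∑ x, F x = 0
    linarith

theorem pf_FKCOR : S_FKCOR := by
  intro V ι _ _ _ _ a b J A
  classical
  -- change variables
  have h1 : (∑ σ : V → Bool, (∏ v ∈ A, sg (σ v)) *
        Real.exp (∑ e, J e * (osg σ (a e) * osg σ (b e)))) =
      ∑ x : V → ZMod 2, sz (∑ v ∈ A, x v) *
        ∏ e, (Real.exp (-J e) * (1 + (Real.exp (2 * J e) - 1) *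
          (if ext0 x (a e) = ext0 x (b e) then 1 else 0))) := by
    symm
    apply Fintype.sum_equiv (Equiv.arrowCongr (Equiv.refl V) bz)
    intro x
    have hx : (Equiv.arrowCongr (Equiv.refl V) bz) x = fun v => bz (x v) := by
      funext v; rfl
    rw [hx, Real.exp_sum, sz_sum]
    congr 1
    · apply Finset.prod_congr rfl; intro v _; rw [sg_bz]
    · apply Finset.prod_congr rfl; intro e _
      rw [osg_bz, osg_bz, exp_edge]
  rw [h1]
  have h2 : ∀ x : V → ZMod 2, sz (∑ v ∈ A, x v) *
        ∏ e, (Real.exp (-J e) * (1 + (Real.exp (2 * J e) - 1) *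
          (if ext0 x (a e) = ext0 x (b e) then 1 else 0))) =
      (∏ e, Real.exp (-J e)) * ∑ ω : Finset ι, (∏ e ∈ ω, (Real.exp (2 * J e) - 1)) *
        (if x ∈ cs a b ω then sz (∑ v ∈ A, x v) else 0) := by
    intro x
    rw [Finset.prod_mul_distrib, Finset.prod_one_add, Finset.powerset_univ]
    rw [mul_left_comm]
    congr 1
    rw [Finset.mul_sum]
    apply Finset.sum_congr rfl
    intro ω _
    rw [Finset.prod_mul_distrib]
    have h3 : (∏ e ∈ ω, (if ext0 x (a e) = ext0 x (b e) then (1 : ℝ) else 0)) =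
        if x ∈ cs a b ω then 1 else 0 := by
      rw [Finset.prod_ite_zero]
      simp only [Finset.prod_const_one]
      exact if_congr Iff.rfl rfl rfl
    rw [h3]
    split_ifs <;> ring
  rw [Finset.sum_congr rfl fun x _ => h2 x, ← Finset.mul_sum, Finset.sum_comm]
  congr 1
  apply Finset.sum_congr rfl
  intro ω _
  rw [← Finset.mul_sum, char_sum]
  split_ifs
  · rfl
  · simp

end Pool.Agent.Helper87.Isg
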