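import Pool.Agent.Helper70.Isg.Goals2

/-!
# Packet FKDM (MP_600500_pr): the domain Markov property
-/

noncomputable section

namespace Pool.Agent.Helper87.Isg

open Pool.Agent.Helper70.Isg

variable {V ι : Type}

/-- the endpoint is not in `S` -/
def outS (S : Finset V) (o : Option V) : Prop := ∀ v, o = some v → v ∉ S

/-- the condition on the edges that are not inside `S` -/
def RR (a b : ι → Option V) (S : Finset V) (w : Finset ι) : Prop :=
  (∀ e ∈ w, outS S (a e) ∧ outS S (b e)) ∧ ∀ x ∈ cs a b w, ∀ v, v ∉ S → x v = 0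

lemma mem_cs {a b : ι → Option V} {w : Finset ι} {x : V → ZMod 2} :
    x ∈ cs a b w ↔ ∀ e ∈ w, ext0 x (a e) = ext0 x (b e) := Iff.rfl

lemma cs_mono {a b : ι → Option V} {w w' : Finset ι} (h : w ⊆ w') {x : V → ZMod 2}
    (hx : x ∈ cs a b w') : x ∈ cs a b w := fun e he => hx e (h he)

variable [Fintype V] [DecidableEq V] [Fintype ι] [DecidableEq ι]

omit [DecidableEq V] [Fintype ι] [DecidableEq ι] in
lemma mem_unc {a b : ι → Option V} {w : Finset ι} {v : V} :
    v ∈ unc a b w ↔ ∃ x ∈ cs a b w, x v ≠ 0 := by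
  simp [unc]

omit [Fintype V] [DecidableEq ι] in
lemma mem_inn {a b : ι → Option V} {S : Finset V} {e : ι} :
    e ∈ inn a b S ↔ (∃ u ∈ S, a e = some u) ∧ ∃ v ∈ S, b e = some v := by
  simp [inn]

/-- cut a vector to `S` -/
def cut (S : Finset V) (x : V → ZMod 2) : V → ZMod 2 := fun v => if v ∈ S then x v else 0

omit [Fintype V] [DecidableEq V] in
lemma ext0_out {S : Finset V} {x : V → ZMod 2} {o : Option V} (ho : outS S o)
    (hx : ∀ v, v ∉ S → x v = 0) : ext0 x o = 0 := by
  cases o with
  | none => simp [ext0]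
  | some v => simpa [ext0] using hx v (ho v rfl)

omit [Fintype V] [DecidableEq V] in
lemma ext0_congr_out {S : Finset V} {x y : V → ZMod 2} {o : Option V} (ho : outS S o)
    (hx : ∀ v, v ∉ S → x v = y v) : ext0 x o = ext0 y o := by
  cases o with
  | none => simp [ext0]
  | some v => simpa [ext0] using hx v (ho v rfl)

omit [Fintype V] [DecidableEq V] in
lemma ext0_congr_in {S : Finset V} {x y : V → ZMod 2} {o : Option V} (ho : ∃ v ∈ S, o = some v)
    (hx : ∀ v, v ∈ S → x v = y v) : ext0 x o = ext0 y o := by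
  obtain ⟨v, hv, rfl⟩ := ho
  simpa [ext0] using hx v hv

lemma unc_iff (a b : ι → Option V) (S : Finset V) (w : Finset ι) :
    unc a b w = S ↔ RR a b S (w \ inn a b S) := by
  constructor
  · intro h
    have h1 : ∀ e ∈ w \ inn a b S, outS S (a e) ∧ outS S (b e) := by
      intro e he
      rw [Finset.mem_sdiff] at he
      constructor
      · intro v hv hvS
        have hv2 := hvS
        rw [← h, mem_unc] at hv2
        obtain ⟨x, hx, hxv⟩ := hv2
        have h2 := hx e he.1
        rw [hv] at h2
        have h3 : ∃ v' ∈ S, b e = some v' := by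
          cases hb : b e with
          | none => rw [hb] at h2; exact absurd h2 (by simpa [ext0] using hxv)
          | some v' =>
            refine ⟨v', ?_, rfl⟩
            rw [← h, mem_unc]
            refine ⟨x, hx, ?_⟩
            rw [hb] at h2
            have h4 : x v = x v' := by simpa [ext0] using h2
            rw [← h4]; exact hxv
        exact he.2 (mem_inn.2 ⟨⟨v, hvS, hv⟩, h3⟩)
      · intro v hv hvS
        have hv2 := hvS
        rw [← h, mem_unc] at hv2
        obtain ⟨x, hx, hxv⟩ := hv2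
        have h2 := (hx e he.1).symm
        rw [hv] at h2
        have h3 : ∃ v' ∈ S, a e = some v' := by
          cases hb : a e with
          | none => rw [hb] at h2; exact absurd h2 (by simpa [ext0] using hxv)
          | some v' =>
            refine ⟨v', ?_, rfl⟩
            rw [← h, mem_unc]
            refine ⟨x, hx, ?_⟩
            rw [hb] at h2
            have h4 : x v = x v' := by simpa [ext0] using h2
            rw [← h4]; exact hxv
        exact he.2 (mem_inn.2 ⟨h3, ⟨v, hvS, hv⟩⟩)
    refine ⟨h1, ?_⟩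
    intro x hx v hv
    by_contra hxv
    apply hv
    rw [← h, mem_unc]
    refine ⟨fun v => if v ∈ S then 0 else x v, ?_, by simpa [hv] using hxv⟩
    intro e he
    by_cases hi : e ∈ inn a b S
    · rw [mem_inn] at hi
      rw [ext0_congr_in (y := 0) hi.1 (by intro v hv; simp [hv]),
        ext0_congr_in (y := 0) hi.2 (by intro v hv; simp [hv])]
      have hz : ∀ o : Option V, ext0 (0 : V → ZMod 2) o = 0 := by intro o; cases o <;> simp [ext0]
      rw [hz, hz]
    · have he2 : e ∈ w \ inn a b S := Finset.mem_sdiff.2 ⟨he, hi⟩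
      rw [ext0_congr_out (y := x) (h1 e he2).1 (by intro v hv; simp [hv]),
        ext0_congr_out (y := x) (h1 e he2).2 (by intro v hv; simp [hv])]
      exact hx e he2
  · intro h
    ext v
    rw [mem_unc]
    constructor
    · rintro ⟨x, hx, hxv⟩
      by_contra hv
      exact hxv (h.2 x (cs_mono Finset.sdiff_subset hx) v hv)
    · intro hv
      refine ⟨fun v => if v ∈ S then 1 else 0, ?_, by simp [hv]⟩
      intro e he
      by_cases hi : e ∈ inn a b S
      · rw [mem_inn] at hi
        rw [ext0_congr_in (y := 1) hi.1 (by intro v hv; simp [hv]),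
          ext0_congr_in (y := 1) hi.2 (by intro v hv; simp [hv])]
        obtain ⟨⟨u, _, hu⟩, ⟨u', _, hu'⟩⟩ := hi
        rw [hu, hu']; simp [ext0]
      · have he2 : e ∈ w \ inn a b S := Finset.mem_sdiff.2 ⟨he, hi⟩
        rw [ext0_out (h.1 e he2).1 (by intro v hv; simp [hv]),
          ext0_out (h.1 e he2).2 (by intro v hv; simp [hv])]

omit [Fintype V] in
lemma cut_mem {a b : ι → Option V} {S : Finset V} {w : Finset ι}
    (h : RR a b S (w \ inn a b S)) {x : V → ZMod 2} (hx : x ∈ cs a b (w ∩ inn a b S)) :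
    cut S x ∈ cs a b w := by
  intro e he
  by_cases hi : e ∈ inn a b S
  · have hx2 := hx e (Finset.mem_inter.2 ⟨he, hi⟩)
    rw [mem_inn] at hi
    rw [ext0_congr_in (y := x) hi.1 (by intro v hv; simp [cut, hv]),
      ext0_congr_in (y := x) hi.2 (by intro v hv; simp [cut, hv])]
    exact hx2
  · have he2 : e ∈ w \ inn a b S := Finset.mem_sdiff.2 ⟨he, hi⟩
    rw [ext0_out (h.1 e he2).1 (by intro v hv; simp [cut, hv]),
      ext0_out (h.1 e he2).2 (by intro v hv; simp [cut, hv])]

/-- product decomposition of `cs` -/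
def csEquiv {a b : ι → Option V} {S : Finset V} {w : Finset ι}
    (h : RR a b S (w \ inn a b S)) :
    cs a b (w ∩ inn a b S) ≃ cs a b w × ({v // v ∉ S} → ZMod 2) where
  toFun x := (⟨cut S x.1, cut_mem h x.2⟩, fun v => x.1 v.1)
  invFun p := ⟨fun v => if hv : v ∈ S then p.1.1 v else p.2 ⟨v, hv⟩, by
    intro e he
    have hi := (Finset.mem_inter.1 he).2
    rw [mem_inn] at hi
    rw [ext0_congr_in (y := p.1.1) hi.1 (by intro v hv; simp [hv]),
      ext0_congr_in (y := p.1.1) hi.2 (by intro v hv; simp [hv])]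
    exact p.1.2 e (Finset.mem_inter.1 he).1⟩
  left_inv := by
    intro x
    ext v
    by_cases hv : v ∈ S <;> simp [cut, hv]
  right_inv := by
    rintro ⟨⟨y, hy⟩, z⟩
    ext v
    · by_cases hv : v ∈ S
      · simp [cut, hv]
      · have : y v = 0 := h.2 y (cs_mono Finset.sdiff_subset hy) v hv
        simp [cut, hv, this]
    · simp [v.2]

lemma card_cs {a b : ι → Option V} {S : Finset V} {w : Finset ι}
    (h : RR a b S (w \ inn a b S)) :
    (Nat.card (cs a b w) : ℝ) =
      (Nat.card (cs a b (w ∩ inn a b S)) : ℝ) / (Nat.card ({v // v ∉ S} → ZMod 2) : ℝ) := by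
  have h1 : Nat.card (cs a b (w ∩ inn a b S)) =
      Nat.card (cs a b w) * Nat.card ({v // v ∉ S} → ZMod 2) := by
    rw [Nat.card_congr (csEquiv h), Nat.card_prod]
  have h2 : 0 < Nat.card ({v // v ∉ S} → ZMod 2) := Nat.card_pos
  have h3 : (Nat.card ({v // v ∉ S} → ZMod 2) : ℝ) ≠ 0 := by
    exact_mod_cast h2.ne'
  rw [h1, Nat.cast_mul]
  field_simp

/-- sums over all edge sets split along a fixed edge set -/
lemma sum_split (I : Finset ι) (f : Finset ι → Finset ι → ℝ) :
    ∑ w : Finset ι, f (w ∩ I) (w \ I) = ∑ w₁ ∈ I.powerset, ∑ w₂ ∈ (Finset.univ \ I).powerset,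
      f w₁ w₂ := by
  rw [← Finset.sum_product']
  apply Finset.sum_nbij' (fun w => (w ∩ I, w \ I)) (fun p => p.1 ∪ p.2)
  · intro w _
    simp only [Finset.mem_product, Finset.mem_powerset]
    exact ⟨Finset.inter_subset_right, Finset.sdiff_subset_sdiff (Finset.subset_univ _) le_rfl⟩
  · intro p _; exact Finset.mem_univ _
  · intro w _
    show w ∩ I ∪ w \ I = w
    rw [Finset.union_comm]
    exact Finset.sdiff_union_inter w I
  · rintro ⟨w₁, w₂⟩ hp
    simp only [Finset.mem_product, Finset.mem_powerset] at hp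
    obtain ⟨h1, h2⟩ := hp
    have h3 : ∀ e ∈ w₂, e ∉ I := fun e he => (Finset.mem_sdiff.1 (h2 he)).2
    ext e
    · simp only [Finset.mem_inter, Finset.mem_union]
      constructor
      · rintro ⟨h | h, h'⟩
        · exact h
        · exact absurd h' (h3 e h)
      · intro h; exact ⟨Or.inl h, h1 h⟩
    · simp only [Finset.mem_sdiff, Finset.mem_union]
      constructor
      · rintro ⟨h | h, h'⟩
        · exact absurd (h1 h) h'
        · exact h
      · intro h; exact ⟨Or.inr h, h3 e h⟩
  · intro w _; rfl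

open Classical in
lemma fk_factor (a b : ι → Option V) (r : ι → ℝ) (S : Finset V) (P : Finset ι → Prop)
    (hP : ∀ w, RR a b S (w \ inn a b S) → (P w ↔ P (w ∩ inn a b S))) :
    (∑ w : Finset ι, if unc a b w = S ∧ P w then fw a b r w else 0) =
      (∑ w₂ ∈ (Finset.univ \ inn a b S).powerset, if RR a b S w₂ then
        (∏ e ∈ w₂, r e) / (Nat.card ({v // v ∉ S} → ZMod 2) : ℝ) else 0) *
      ∑ w₁ ∈ (inn a b S).powerset, if P w₁ then fw a b r w₁ else 0 := by
  have h1 : ∀ w : Finset ι, (if unc a b w = S ∧ P w then fw a b r w else 0) =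
      (fun w₁ w₂ => (if RR a b S w₂ then
        (∏ e ∈ w₂, r e) / (Nat.card ({v // v ∉ S} → ZMod 2) : ℝ) else 0) *
        (if P w₁ then fw a b r w₁ else 0)) (w ∩ inn a b S) (w \ inn a b S) := by
    intro w
    simp only
    by_cases hR : RR a b S (w \ inn a b S)
    · rw [if_pos hR]
      have hu : unc a b w = S := (unc_iff a b S w).2 hR
      by_cases hw : P w
      · rw [if_pos ⟨hu, hw⟩, if_pos ((hP w hR).1 hw)]
        unfold fw
        rw [card_cs hR]
        have h2 : ∏ e ∈ w, r e = (∏ e ∈ w \ inn a b S, r e) * ∏ e ∈ w ∩ inn a b S, r e := by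
          rw [← Finset.prod_union (Finset.disjoint_sdiff_inter w (inn a b S)),
            Finset.sdiff_union_inter]
        rw [h2]; ring
      · rw [if_neg (fun h => hw h.2), if_neg (fun h => hw ((hP w hR).2 h)), mul_zero]
    · rw [if_neg hR, zero_mul, if_neg]
      rintro ⟨h, -⟩
      exact hR ((unc_iff a b S w).1 h)
  refine (Finset.sum_congr rfl fun w _ => h1 w).trans ((sum_split (inn a b S) (fun w₁ w₂ =>
      (if RR a b S w₂ then
        (∏ e ∈ w₂, r e) / (Nat.card ({v // v ∉ S} → ZMod 2) : ℝ) else 0) *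
        (if P w₁ then fw a b r w₁ else 0))).trans ?_)
  rw [Finset.sum_mul_sum, Finset.sum_comm]

theorem pf_FKDM : S_FKDM := by
  intro V ι _ _ _ _ a b r S o u ho hu
  classical
  have h1 := fk_factor a b r S (fun w => ∀ x ∈ cs a b w, x o = x u) (by
    intro w hR
    constructor
    · intro h x hx
      have := h _ (cut_mem hR hx)
      simpa [cut, ho, hu] using this
    · intro h x hx
      exact h x (cs_mono Finset.inter_subset_left hx))
  have h2 := fk_factor a b r S (fun _ => True) (by intro w _; exact Iff.rfl)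
  simp only [and_true, if_true] at h2
  have key : ∀ (X A B Y C : ℝ), X = C * A → Y = C * B → X * B = Y * A := by
    intro X A B Y C hX hY
    rw [hX, hY]; ring
  refine key _ _ _ _ (∑ w₂ ∈ (Finset.univ \ inn a b S).powerset, if RR a b S w₂ then
        (∏ e ∈ w₂, r e) / (Nat.card ({v // v ∉ S} → ZMod 2) : ℝ) else 0) ?_ ?_
  · refine Eq.trans ?_ (h1.trans ?_)
    · exact Finset.sum_congr rfl (fun ω _ => by split_ifs <;> rfl)
    · congr 1
      exact Finset.sum_congr rfl (fun ω _ => by split_ifs <;> rfl)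
  · refine Eq.trans ?_ (h2.trans ?_)
    · exact Finset.sum_congr rfl (fun ω _ => by split_ifs <;> rfl)
    · congr 1

end Pool.Agent.Helper87.Isg
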